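import Pool.Agent.Q326.PV.Prob

/-!
# The dual graph of the hyperbolic Poisson Voronoi tessellation: no anchored thin triangles
-/

namespace Pool.Agent.Results.MP_c20824_pr.NotAnchoredThin

open UpperHalfPlane MeasureTheory ProbabilityTheory Pool.Agent.Q326.PV
open scoped NNReal

/-- For a Poisson point process `X` in the hyperbolic plane (upper half-plane model) of intensity
`lam > 0` times the hyperbolic area, almost surely the dual graph of its Voronoi tessellation is
connected and infinite, and for EVERY vertex `x` and every real `δ` there is a geodesic triangle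
having `x` as a vertex which is not `δ`-thin. -/
theorem result {Ω : Type*} [MeasurableSpace Ω] (P : Measure Ω) [IsProbabilityMeasure P]
    (lam : ℝ≥0) (hlam : 0 < lam) (X : Ω → Set ℍ) (hX : IsPoissonProcess P lam X) :
    ∀ᵐ ω ∂P, (vorGraph (X ω)).Connected ∧ (X ω).Infinite ∧
      ∀ x : X ω, ∀ δ : ℝ, ∃ (y z : X ω) (p : (vorGraph (X ω)).Walk x y)
        (q : (vorGraph (X ω)).Walk y z) (r : (vorGraph (X ω)).Walk z x),
        IsGeodesic (vorGraph (X ω)) p ∧ IsGeodesic (vorGraph (X ω)) q ∧
          IsGeodesic (vorGraph (X ω)) r ∧ ¬ IsThin (vorGraph (X ω)) δ p q r := by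
  have h : ∀ᵐ ω ∂P, ∀ M : ℕ, ∃ n, ω ∈ Ev X M n :=
    ae_all_iff.2 fun M => ae_exists_patch hlam hX M
  filter_upwards [h] with ω hω
  have hS : LocFin (X ω) := hX.locallyFinite ω
  have hp : ∀ M : ℕ, ∃ (n : ℕ) (v : ℤ → ℤ → ℍ), IsPatch (X ω) n (mesh M) M v := by
    intro M
    obtain ⟨n, hn⟩ := hω M
    exact ⟨n, patch_of_mem hS hn⟩
  have hinf : (X ω).Infinite := by
    intro hfin
    obtain ⟨n, v, hv⟩ := hp (X ω).ncard
    set N := (X ω).ncard with hN
    have habs : ∀ i : Fin (N + 1), |((i : ℕ) : ℤ)| ≤ N := by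
      intro i
      rw [abs_le]
      have := i.2
      omega
    have h0 : |(0 : ℤ)| ≤ N := by simp
    have hsub : Set.range (fun i : Fin (N + 1) => v ((i : ℕ) : ℤ) 0) ⊆ X ω := by
      rintro _ ⟨i, rfl⟩
      exact hv.mem _ _ (habs i) h0
    have hinj : Function.Injective (fun i : Fin (N + 1) => v ((i : ℕ) : ℤ) 0) := by
      intro i j hij
      have := (hv.inj (habs j) h0 (habs i) h0 hij).1
      exact Fin.ext (by exact_mod_cast this)
    have h1 := Set.ncard_le_ncard hsub hfin
    rw [← Set.image_univ, Set.ncard_image_of_injective _ hinj, Set.ncard_univ,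
      Nat.card_eq_fintype_card, Fintype.card_fin] at h1
    omega
  refine ⟨vorGraph_connected hS hinf.nonempty, hinf, fun x δ => ?_⟩
  obtain ⟨k, hk⟩ := exists_nat_gt (4 * δ)
  obtain ⟨n, v, hv⟩ := hp (3 * k)
  exact hv.exists_not_thin hS k le_rfl x hk

end Pool.Agent.Results.MP_c20824_pr.NotAnchoredThin
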